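import Pool.Agent.V1145.DA4

/-!
MP_1e46c9_co: the graph of the `m`-fold pyramid over ANY polytope `P` of dimension `n ≥ 2` is
dimensionally ambiguous as soon as `m ≥ 3`: it is the graph of a polytope of dimension `n + m` (the
pyramid) and also the graph of a polytope of dimension `n + m - 1`, namely of the free sum of `P`
and a simplex of dimension `m - 1`. In particular Q1 has a negative answer, for every `n ≥ 3`, every
admissible `P` and every `d ≥ n + 3`.

A polytope is given by the family `v` of its vertices (a finite convexly independent family); two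
vertices are adjacent when the segment joining them is an exposed face of the convex hull.
-/

namespace Pool.Agent.Results.MP_1e46c9_co.FreeSum

open Pool.Agent.V1145.DA Module

/-- Let `n ≥ 2`, `m ≥ 3` and let `v` be the family of the vertices of an `n`-dimensional polytope
`P` in `ℝ ^ N`. (1) If `N ≥ n + m`, there is an `m`-fold pyramid in `ℝ ^ N` with basis `P`.
(2) Every `m`-fold pyramid with basis `P` (vertices `w`) has dimension `n + m`, and its graph
consists of the graph of `P` and `m` further vertices, each joined to all other vertices.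
(3) This graph is also the graph of a polytope of dimension `n + m - 1`. -/
theorem result (n m N : ℕ) (hn : 2 ≤ n) (hm : 3 ≤ m) (ι : Type) [Fintype ι]
    (v : ι → EuclideanSpace ℝ (Fin N)) (hv : ConvexIndependent ℝ v) (hd : dim v = n) :
    (n + m ≤ N → ∃ w : ι ⊕ Fin m → EuclideanSpace ℝ (Fin N), IsPyramid v w) ∧
    (∀ w : ι ⊕ Fin m → EuclideanSpace ℝ (Fin N), IsPyramid v w →
      ConvexIndependent ℝ w ∧ dim w = n + m ∧ skeleton w = joinComplete (skeleton v) (Fin m)) ∧
    ∃ (M : ℕ) (u : ι ⊕ Fin m → EuclideanSpace ℝ (Fin M)), ConvexIndependent ℝ u ∧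
      dim u = n + m - 1 ∧ skeleton u = joinComplete (skeleton v) (Fin m) := by
  classical
  have hcard : n + 1 ≤ Fintype.card ι := by
    have h0 : 0 < Fintype.card ι := by
      by_contra h
      have h1 : Fintype.card ι = 0 := by omega
      have h2 : IsEmpty ι := Fintype.card_eq_zero_iff.1 h1
      have h3 : dim v = 0 := by
        unfold dim
        rw [Set.range_eq_empty v, vectorSpan_empty]
        exact finrank_bot ℝ _
      omega
    have h4 := finrank_vectorSpan_range_le ℝ v (n := Fintype.card ι - 1) (by omega)
    unfold dim at hd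
    omega
  have hι : Nonempty ι := Fintype.card_pos_iff.1 (by omega)
  have hι' : Nontrivial ι := Fintype.one_lt_card_iff_nontrivial.1 (by omega)
  have hm' : Nontrivial (Fin m) := Fintype.one_lt_card_iff_nontrivial.1 (by
    rw [Fintype.card_fin]; omega)
  have hm'' : Nonempty (Fin m) := ⟨⟨0, by omega⟩⟩
  refine ⟨fun hN => exists_pyramid m (by rw [hd]; simpa using hN), fun w hw =>
    ⟨indep_pyramid hw hv, by rw [dim_pyramid hw, hd], skeleton_pyramid hw hv⟩, ?_⟩
  set g : EuclideanSpace ℝ (Fin N) := (Fintype.card ι : ℝ)⁻¹ • ∑ i, v i with hg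
  have hp0 : ∑ i, (v i - g) = 0 := by
    rw [Finset.sum_sub_distrib, Finset.sum_const, Finset.card_univ, ← Nat.cast_smul_eq_nsmul ℝ, hg,
      smul_smul, mul_inv_cancel₀ (Nat.cast_ne_zero.2 Fintype.card_ne_zero), one_smul, sub_self]
  have hq0 := simp_sum m (by omega)
  have hpi := indep_translate hv g
  have hu := indep_freeSum hpi (simp_indep m) hp0 hq0
  have hsk := skeleton_freeSum hpi (simp_indep m) hp0 hq0 (by omega)
    (by rw [Fintype.card_fin]; omega) (simp_adj m)
  have hdim := dim_freeSum hp0 hq0
  rw [dim_translate, hd] at hdim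
  rw [skeleton_translate hv] at hsk
  have hsd := simp_dim m (by omega)
  refine ⟨_, fun x => toEuclidean (freeSum (fun i => v i - g) (simp m) x), indep_equiv hu _, ?_, ?_⟩
  · rw [dim_equiv]
    omega
  · rw [skeleton_equiv hu, hsk]

end Pool.Agent.Results.MP_1e46c9_co.FreeSum
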